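import Pool.Agent.Work.MP_7d1693_pr.FX.Fin
import Pool.Agent.Work.MP_7d1693_pr.FX.WdType

namespace Pool.Agent.Results.MP_7d1693_pr.FirstMoment

open Finset Pool.Agent.Work.MP_7d1693_pr Pool.Agent.Work.MP_7d1693_pr.FM
  Pool.Agent.Work.MP_7d1693_pr.FX

/-- Q1: the order of magnitude of `z P (M_t)` for all `r ≥ 2`, all sets `P` of patterns and all
`t ≤ n` is `gg`, given by the numbers of cliques `ac`; explicit values for `r = 2`, `r = 3`, and for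
several families of sets for every `r`. -/
theorem result (r : ℕ) (hr : 2 ≤ r) (P : Set (List Bool)) :
    -- the order of magnitude for all `t`
    HasOrder r P (fun n t => (gg r P n t : ℝ)) ∧
    -- size of `gg`, and the regimes where it is bounded
    (∀ a, IsLeast {a | ∃ lam, Adm r P lam ∧ lam.headD 0 = a} a →
      (∃ C : ℝ, 0 < C ∧ ∀ n t : ℕ, 1 ≤ t → t ≤ n →
        (n : ℝ) * ((t : ℝ) / n) ^ a ≤ ((gg r P n t : ℝ) + 1) ^ r ∧
        (gg r P n t : ℝ) ≤ C * ((n : ℝ) * ((t : ℝ) / n) ^ a)) ∧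
      (∃ (R : ℕ) (C : ℝ), 0 < C ∧ ∀ n t : ℕ, 1 ≤ t → t ≤ n →
        Prob r n t {M | R < z P M} ≤ ENNReal.ofReal (C * ((n : ℝ) * ((t : ℝ) / n) ^ a))) ∧
      (2 ≤ a → ∃ R : ℕ, ∀ D : ℝ, 0 < D → ∀ k : ℕ, ∃ ε : ℝ, 0 < ε ∧ ∃ n0 : ℕ, ∀ n t : ℕ,
        n0 ≤ n → 1 ≤ t → t ≤ n → 1 / D ≤ (n : ℝ) * ((t : ℝ) / n) ^ a →
        (n : ℝ) * ((t : ℝ) / n) ^ a ≤ D →
        ENNReal.ofReal ε ≤ Prob r n t {M | z P M ≤ R} ∧
        ENNReal.ofReal ε ≤ Prob r n t {M | k ≤ z P M})) ∧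
    ((¬ ∃ lam, Adm r P lam) → ∃ R : ℕ, ∀ n t : ℕ, 1 ≤ t → t ≤ n →
      Prob r n t {M | R < z P M} = 0) ∧
    -- explicit values of `gg`
    (r = 2 → Cmp (fun n t => (gg r P n t : ℝ)) (g2 P)) ∧
    (r = 3 → Cmp (fun n t => (gg r P n t : ℝ)) (g3 P)) ∧
    ((∀ s : ℕ → Bool, s 0 = true → wd r s ∈ P) →
      Cmp (fun n t => (gg r P n t : ℝ)) (fun _ t => (t : ℝ))) ∧
    (∀ u : ℕ → Bool, u 0 = true → wd r u ∉ P →
      (∃ K : ℝ, 0 < K ∧ ∀ n t : ℕ, 1 ≤ t → t ≤ n →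
        (gg r P n t : ℝ) ≤ K * (t : ℝ) ^ (1 - 1 / (r : ℝ))) ∧
      (3 ≤ r → (∀ s : ℕ → Bool, s 0 = true → wd r s ≠ wd r u → wd r s ∈ P) →
        Cmp (fun n t => (gg r P n t : ℝ)) (fun _ t => (t : ℝ) ^ (1 - 1 / (r : ℝ))))) ∧
    (∀ (κ : ℕ → ℕ) (u : ℕ → Bool), (∀ w, w ∈ P ↔ ∃ s : ℕ → Bool, s 0 = true ∧
        (∀ i < r, ∀ j < r, κ i = κ j → (s i = s j ↔ u i = u j)) ∧ w = wd r s) →
      Cmp (fun n t => (gg r P n t : ℝ))
        (fun _ t => (t : ℝ) ^ (1 / ((r : ℝ) + 1 - ((range r).image κ).card)))) := by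
  refine ⟨order_gg hr P, ?_, (main r hr P).2, ?_, ?_, ?_, ?_, ?_⟩
  · intro a ha
    have ha' := ha
    obtain ⟨⟨lam0, hlam0, hlam0a⟩, hmin⟩ := ha'
    have hall : ∀ lam, Adm r P lam → a ≤ lam.headD 0 := fun lam h => hmin ⟨lam, h, rfl⟩
    refine ⟨sand hr hall ⟨lam0, hlam0, hlam0a⟩, ?_, fun ha2 => window hr ha ha2⟩
    obtain ⟨R, C, hC, h⟩ := small hr hall ⟨lam0, hlam0⟩
    refine ⟨R, C, hC, fun n t ht htn => ?_⟩
    rw [Prob_eq hr htn]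
    exact ENNReal.ofReal_le_ofReal (h n t ht htn)
  · rintro rfl
    refine cmp_of hr (fun n t => ?_) (order2 P)
    unfold g2
    split_ifs <;> positivity
  · rintro rfl
    refine cmp_of hr (fun n t => ?_) (order3 P)
    unfold g3
    refine le_max_of_le_left ?_
    split_ifs <;> positivity
  · intro h
    exact cmp_of hr (fun n t => Nat.cast_nonneg _) (order_full hr h)
  · intro u hu hP
    refine ⟨up_mis' hr u hu hP, fun hr3 hall => ?_⟩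
    refine cmp_of hr (fun n t => by positivity) (order_mis hr3 u hu fun s hs => ⟨fun hsP => ?_, ?_⟩)
    · by_contra hcon
      push Not at hcon
      exact hP (wd_congr hcon ▸ hsP)
    · rintro ⟨i, hi, hne⟩
      exact hall s hs fun heq => hne (wd_inj heq i hi)
  · intro κ u h
    exact cmp_of hr (fun n t => by positivity) (order_cls hr κ u h)

end Pool.Agent.Results.MP_7d1693_pr.FirstMoment
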