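import Pool.Agent.Work.MP_7d1693_pr.PROC
import Pool.Agent.Work.MP_7d1693_pr.UPPER
import Pool.Agent.Work.MP_7d1693_pr.LOWER

namespace Pool.Agent.Results.MP_7d1693_pr.ThinPatternSets

open Finset Pool.Agent.Work.MP_7d1693_pr

/-- The order of growth `(n (t/n)^a)^(1/r)`. -/
noncomputable def g (r a n t : ℕ) : ℝ := ((n : ℝ) * ((t : ℝ) / n) ^ a) ^ (1 / (r : ℝ))

theorem result (r : ℕ) (hr : 2 ≤ r) (P : Set (List Bool)) (hP : Thin r P) (a : ℕ)
    (ha : IsLeast {a | ∃ w ∈ P, ∃ lam : List ℕ, (a :: lam).sum = r ∧ HasType w (a :: lam)} a) :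
    ∃ c C : ℝ, 0 < c ∧ 0 < C ∧ ∀ n t : ℕ, 1 ≤ t → t ≤ n →
      (process r t (range (r * n))).toOuterMeasure {M | (z P M : ℝ) < c * g r a n t} ≤
        ENNReal.ofReal (Real.exp (-(c * g r a n t))) ∧
      ∀ k : ℕ, 1 ≤ k →
        (process r t (range (r * n))).toOuterMeasure {M | C + k ≤ (z P M : ℝ)} ≤
          ENNReal.ofReal ((C * g r a n t / k) ^ (r * k)) := by
  obtain ⟨⟨w, hwP, lam, hsum, b, hb1, hb2, hb3, hb4⟩, hmin⟩ := ha
  -- the block list of `w`
  obtain ⟨b', hb'⟩ : ∃ b', b = (a, true) :: b' := by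
    cases b with
    | nil => simp at hb1
    | cons x l =>
      obtain ⟨x1, x2⟩ := x
      simp only [List.map_cons, List.cons.injEq] at hb1
      simp only [List.head?_cons, Option.map_some, Option.some.injEq] at hb3
      exact ⟨l, by rw [hb1.1, hb3]⟩
  subst hb'
  have hlam : b'.map Prod.fst = lam := by
    simpa using hb1
  have ha0 : 0 < a := hb2 (a, true) List.mem_cons_self
  have hb0 : ∀ x ∈ b', 0 < x.1 := fun x hx => hb2 x (List.mem_cons_of_mem _ hx)
  have hs : a + (b'.map Prod.fst).sum = r := by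
    rw [hlam]; simpa using hsum
  have har : a ≤ r := by omega
  obtain ⟨c, hc, hlow⟩ := lower r a b' ha0 hb0 hs hr P (by rw [← hb4]; exact hwP)
  obtain ⟨C0, hC0, hup⟩ := upper r hr P hP a har (by
    intro w hw lam a' h1 h2
    exact hmin ⟨w, hw, lam, h1, h2⟩)
  refine ⟨c, max C0 1, hc, by positivity, ?_⟩
  intro n t ht1 htn
  have hcard : r * t ≤ (range (r * n)).card := by
    rw [card_range]; exact Nat.mul_le_mul_left _ htn
  have hr0 : 0 < r := by omega
  have hn : (0 : ℝ) < n := by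
    have : 0 < n := by omega
    exact_mod_cast this
  have hg0 : 0 ≤ (n : ℝ) * ((t : ℝ) / n) ^ a := by positivity
  have hgr : g r a n t ^ r = (n : ℝ) * ((t : ℝ) / n) ^ a := by
    unfold g
    rw [← Real.rpow_natCast, ← Real.rpow_mul hg0]
    rw [one_div_mul_cancel (by exact_mod_cast hr0.ne'), Real.rpow_one]
  constructor
  · rw [process_eq r t hr0 _ hcard]
    exact ENNReal.ofReal_le_ofReal (hlow n t ht1 htn)
  · intro k hk
    rw [process_eq r t hr0 _ hcard]
    apply ENNReal.ofReal_le_ofReal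
    have hk0 : (0 : ℝ) < k := by exact_mod_cast hk
    calc pr r t (range (r * n)) (fun M => max C0 1 + k ≤ (z P M : ℝ))
        ≤ pr r t (range (r * n)) (fun M => C0 + k ≤ (z P M : ℝ)) := by
          apply pr_mono
          intro M _ hM
          have := le_max_left C0 1
          linarith
      _ ≤ (C0 * ((n : ℝ) * ((t : ℝ) / n) ^ a) / (k : ℝ) ^ r) ^ k := hup n t k ht1 htn hk
      _ ≤ (max C0 1 * g r a n t / k) ^ (r * k) := by
          rw [pow_mul]
          apply pow_le_pow_left₀ (by positivity)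
          rw [div_pow (max C0 1 * g r a n t), mul_pow, hgr]
          apply div_le_div_of_nonneg_right _ (by positivity)
          apply mul_le_mul_of_nonneg_right _ hg0
          calc C0 ≤ max C0 1 := le_max_left _ _
            _ = (max C0 1) ^ 1 := (pow_one _).symm
            _ ≤ (max C0 1) ^ r := pow_le_pow_right₀ (le_max_right _ _) (by omega)

end Pool.Agent.Results.MP_7d1693_pr.ThinPatternSets
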