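import Pool.Agent.Work.MP_7d1693_pr.FX.Fin

namespace Pool.Agent.Results.MP_7d1693_pr.Threshold

open Finset Pool.Agent.Work.MP_7d1693_pr Pool.Agent.Work.MP_7d1693_pr.FM
  Pool.Agent.Work.MP_7d1693_pr.FX

/-- Q2: the threshold for the process to contain a `P`-clique with `k` edges, for all `r ≥ 2`, all
sets `P` of patterns and all `k`. -/
theorem result (r : ℕ) (hr : 2 ≤ r) (P : Set (List Bool)) :
    -- the threshold for `k` edges, `k` growing
    ((∃ lam, Adm r P lam) → ∃ c C : ℝ, 0 < c ∧ 0 < C ∧ ∀ n t k : ℕ, 1 ≤ t → t ≤ n → 1 ≤ k →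
      ((t : ℝ) ≤ c * tstar r P n k → Prob r n t {M | k ≤ z P M} ≤ ENNReal.ofReal (C / k)) ∧
      (C * tstar r P n k ≤ t → Prob r n t {M | z P M < k} ≤ ENNReal.ofReal (C / k))) ∧
    -- bounded `k`
    (∀ k : ℕ, 1 ≤ k → ((CK r P k).Nonempty → ∃ C : ℝ, 0 < C ∧ ∀ n t : ℕ, 1 ≤ t → t ≤ n →
        Prob r n t {M | k ≤ z P M} ≤
          ENNReal.ofReal (C * ((n : ℝ) * ((t : ℝ) / n) ^ rho r P k)) ∧
        Prob r n t {M | z P M < k} ≤
          ENNReal.ofReal (C / ((n : ℝ) * ((t : ℝ) / n) ^ rho r P k))) ∧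
      (¬ (CK r P k).Nonempty → ∀ n t : ℕ, 1 ≤ t → t ≤ n → Prob r n t {M | k ≤ z P M} = 0)) := by
  refine ⟨?_, ?_⟩
  · intro hP
    obtain ⟨c, C, hc, hC, h⟩ := (main r hr P).1 hP
    exact ⟨c, C, hc, hC, fun n t k ht htn hk => (h n t ht htn).2.2 k hk⟩
  · intro k hk
    refine ⟨fun hK => ?_, fun hK n t ht htn => ?_⟩
    · obtain ⟨C1, hC1, h1⟩ := fix_up hr P hK
      obtain ⟨C2, hC2, h2⟩ := fix_low hr P hk hK
      refine ⟨max C1 C2, lt_max_of_lt_left hC1, fun n t ht htn => ⟨?_, ?_⟩⟩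
      · rw [Prob_eq hr htn]
        refine ENNReal.ofReal_le_ofReal ((h1 n t ht htn).trans ?_)
        exact mul_le_mul_of_nonneg_right (le_max_left _ _) (by positivity)
      · rw [Prob_eq hr htn]
        refine ENNReal.ofReal_le_ofReal ((h2 n t ht htn).trans ?_)
        exact div_le_div_of_nonneg_right (le_max_right _ _) (by positivity)
    · rw [Prob_eq hr htn, fix_none hr P hK ht htn, ENNReal.ofReal_zero]

end Pool.Agent.Results.MP_7d1693_pr.Threshold
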